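import Pool.Agent.TH984.FC.Golden

/-! The golden mean chain: cylinder bounds, entropy, ergodicity, exponential return times. -/

set_option autoImplicit false

open MeasureTheory ProbabilityTheory Filter Topology
open scoped ENNReal NNReal
open Pool.Agent.Helper179.KS

namespace Pool.Agent.TH984.FC.Golden

/-- right eigenvector -/
noncomputable def r : Bool → ℝ := fun a => if a then 1 else g

lemma r_pos (a : Bool) : 0 < r a := by
  have := g_pos
  cases a <;> simp [r]; positivity

lemma r_le (a : Bool) : r a ≤ g := by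
  have := one_lt_g
  cases a <;> simp [r]; linarith

lemma one_le_r (a : Bool) : 1 ≤ r a := by
  have := one_lt_g
  cases a <;> simp [r]; linarith

lemma P_le (a b : Bool) : P a b ≤ r b / (g * r a) := by
  have h0 := g_pos
  cases a <;> cases b <;> simp only [P, r] <;> simp
  · rw [pow_two, mul_inv]
  · rw [div_self h0.ne']
  · positivity

lemma P_eq {a b : Bool} (h : ¬ (a = true ∧ b = true)) : P a b = r b / (g * r a) := by
  have h0 := g_pos
  cases a <;> cases b <;> simp only [P, r] <;> simp at h ⊢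
  · rw [pow_two, mul_inv]
  · rw [div_self h0.ne']

lemma tele (n : ℕ) (w : ℕ → Bool) :
    ∏ i ∈ Finset.range n, (r (w (i + 1)) / (g * r (w i))) = r (w n) / (g ^ n * r (w 0)) := by
  have h0 := g_pos
  induction n with
  | zero => simp [(r_pos (w 0)).ne']
  | succ n ih =>
    rw [Finset.prod_range_succ, ih]
    have h1 := r_pos (w 0)
    have h2 := r_pos (w n)
    field_simp
    ring

lemma prod_le (n : ℕ) (w : ℕ → Bool) :
    ∏ i ∈ Finset.range n, P (w i) (w (i + 1)) ≤ r (w n) / (g ^ n * r (w 0)) := by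
  rw [← tele]
  exact Finset.prod_le_prod (fun _ _ => P_nonneg _ _) fun _ _ => P_le _ _

lemma p_le_one (a : Bool) : p a ≤ 1 := by
  have h0 := g_pos
  cases a <;> simp only [p] <;> simp
  · rw [div_le_one (by positivity)]; linarith
  · rw [inv_le_one₀ (by positivity)]; nlinarith

lemma exp_log_g (n : ℕ) : Real.exp (-(Real.log g * n)) = (g ^ n)⁻¹ := by
  rw [mul_comm, Real.exp_neg, Real.exp_nat_mul, Real.exp_log g_pos]

lemma mu_cyl (m n : ℕ) (w : ℕ → Bool) :
    mu {x | ∀ i < n, x ((m : ℤ) + i) = w i} ≤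
      ENNReal.ofReal (g ^ 2 * Real.exp (-(Real.log g * n))) := by
  have h0 := g_pos
  rw [exp_log_g]
  rcases n with _ | n
  · refine le_trans prob_le_one ?_
    rw [← ENNReal.ofReal_one]
    refine ENNReal.ofReal_le_ofReal ?_
    rw [pow_zero, inv_one, mul_one]
    nlinarith [one_lt_g]
  · have h1 : {x : ℤ → Bool | ∀ i < n + 1, x ((m : ℤ) + i) = w i} =
        {x : ℤ → Bool | ∀ i : ℕ, i ≤ n → x ((m : ℤ) + i) = w i} := by
      ext x
      simp only [Set.mem_ofPred_eq, Nat.lt_succ_iff]
    rw [h1, mu_word]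
    refine ENNReal.ofReal_le_ofReal ?_
    calc p (w 0) * ∏ i ∈ Finset.range n, P (w i) (w (i + 1))
        ≤ 1 * (r (w n) / (g ^ n * r (w 0))) :=
          mul_le_mul (p_le_one _) (prod_le n w) (Finset.prod_nonneg fun _ _ => P_nonneg _ _)
            zero_le_one
      _ ≤ g / (g ^ n * 1) := by
          rw [one_mul]
          refine div_le_div₀ h0.le (r_le _) (by positivity) ?_
          exact mul_le_mul_of_nonneg_left (one_le_r _) (by positivity)
      _ = g ^ 2 * (g ^ (n + 1))⁻¹ := by
          field_simp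
          ring

/-- no two adjacent `true`s -/
def allowed (L : ℕ) (w : ℕ → Bool) : Prop := ∀ i < L, ¬ (w i = true ∧ w (i + 1) = true)

lemma p_ge (a : Bool) : r a / (g ^ 2 + 1) ≤ p a := by
  have h0 := g_pos
  have h1 := one_lt_g
  cases a <;> simp only [p, r] <;> simp
  rw [div_le_div_iff_of_pos_right (by positivity)]
  nlinarith

lemma mu_allowed (m : ℤ) (L : ℕ) (w : ℕ → Bool) (hw : allowed L w) :
    ENNReal.ofReal ((g ^ 2 + 1)⁻¹ * (g ^ L)⁻¹) ≤
      mu {x : ℤ → Bool | ∀ i : ℕ, i ≤ L → x (m + i) = w i} := by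
  have h0 := g_pos
  rw [mu_word]
  refine ENNReal.ofReal_le_ofReal ?_
  have h1 : ∏ i ∈ Finset.range L, P (w i) (w (i + 1)) = r (w L) / (g ^ L * r (w 0)) := by
    rw [← tele]
    exact Finset.prod_congr rfl fun i hi => P_eq (hw i (Finset.mem_range.1 hi))
  rw [h1]
  have h2 := r_pos (w 0)
  have h3 := r_pos (w L)
  calc (g ^ 2 + 1)⁻¹ * (g ^ L)⁻¹ ≤ (g ^ 2 + 1)⁻¹ * (g ^ L)⁻¹ * r (w L) :=
        le_mul_of_one_le_right (by positivity) (one_le_r _)
    _ = r (w 0) / (g ^ 2 + 1) * (r (w L) / (g ^ L * r (w 0))) := by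
        field_simp
    _ ≤ p (w 0) * (r (w L) / (g ^ L * r (w 0))) :=
        mul_le_mul_of_nonneg_right (p_ge _) (by positivity)

/-- The number of allowed words of length `L + 1`. -/
lemma card_allowed (L : ℕ) (s : Finset (Fin (L + 1) → Bool))
    (hs : ∀ v ∈ s, ∀ i : ℕ, ∀ hi : i + 1 < L + 1, ¬ (v ⟨i, by omega⟩ = true ∧ v ⟨i + 1, hi⟩ = true)) :
    (s.card : ℝ) ≤ (g ^ 2 + 1) * g ^ L := by
  have h0 := g_pos
  set f : (ℤ → Bool) → (Fin (L + 1) → Bool) := fun x i => x ((i : ℕ) : ℤ) with hf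
  have hfm : Measurable f := measurable_pi_lambda _ fun i => measurable_pi_apply _
  have h1 : ∑ v ∈ s, mu (f ⁻¹' {v}) ≤ 1 := by
    rw [sum_measure_preimage_singleton s fun v _ => hfm (measurableSet_singleton v)]
    exact prob_le_one
  have h2 : ∀ v ∈ s, ENNReal.ofReal ((g ^ 2 + 1)⁻¹ * (g ^ L)⁻¹) ≤ mu (f ⁻¹' {v}) := by
    intro v hv
    set w : ℕ → Bool := fun i => if h : i < L + 1 then v ⟨i, h⟩ else false with hw
    refine le_trans (mu_allowed 0 L w ?_) (measure_mono ?_)
    · intro i hi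
      have := hs v hv i (by omega)
      simp only [hw]
      rw [dif_pos (by omega), dif_pos (by omega)]
      exact this
    · intro x hx
      simp only [Set.mem_preimage, Set.mem_singleton_iff]
      funext i
      have := hx i (by omega)
      simp only [hf]
      rw [zero_add] at this
      rw [this]
      simp only [hw]
      rw [dif_pos i.2]
  have h3 : (s.card : ℝ≥0∞) * ENNReal.ofReal ((g ^ 2 + 1)⁻¹ * (g ^ L)⁻¹) ≤ 1 := by
    refine le_trans ?_ h1
    rw [← nsmul_eq_mul]
    exact Finset.card_nsmul_le_sum s _ _ h2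
  have h4 : (s.card : ℝ) * ((g ^ 2 + 1)⁻¹ * (g ^ L)⁻¹) ≤ 1 := by
    rw [← ENNReal.ofReal_natCast, ← ENNReal.ofReal_mul (Nat.cast_nonneg _),
      ← ENNReal.ofReal_one] at h3
    exact (ENNReal.ofReal_le_ofReal_iff zero_le_one).1 h3
  have h5 : (0 : ℝ) < (g ^ 2 + 1) * g ^ L := by positivity
  calc (s.card : ℝ) = (s.card : ℝ) * ((g ^ 2 + 1)⁻¹ * (g ^ L)⁻¹) * ((g ^ 2 + 1) * g ^ L) := by
        field_simp
    _ ≤ 1 * ((g ^ 2 + 1) * g ^ L) := mul_le_mul_of_nonneg_right h4 h5.le
    _ = _ := one_mul _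

lemma ae_allowed : ∀ᵐ x ∂mu, x ∈ {x : ℤ → Bool | ∀ n : ℤ, ¬ (x n = true ∧ x (n + 1) = true)} := by
  have h1 : ∀ᵐ x ∂mu, ∀ n : ℤ, ¬ (x n = true ∧ x (n + 1) = true) := by
    rw [ae_all_iff]
    intro n
    rw [ae_iff]
    have h2 := mu_word n 1 (fun _ => true)
    rw [Finset.prod_range_one] at h2
    simp only [P, if_true, mul_zero, ENNReal.ofReal_zero] at h2
    refine measure_mono_null ?_ h2
    intro x hx i hi
    simp only [Set.mem_ofPred_eq, not_not] at hx
    interval_cases i
    · simpa using hx.1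
    · simpa using hx.2
  exact h1

/-- uniform smallness of cylinders -/
lemma small_cyl [MetricSpace (ℤ → Bool)] {X : Type*} [MetricSpace X] [CompactSpace X]
    (coord : ℤ → X → Bool) (hc : ∀ i, Continuous (coord i))
    (hinj : ∀ x y, (∀ i, coord i x = coord i y) → x = y) {ε : ℝ} (hε : 0 < ε) :
    ∃ L : ℕ, ∀ x y : X, (∀ i : ℤ, |i| ≤ L → coord i x = coord i y) → dist x y < ε := by
  have hD : IsCompact {z : X × X | ε ≤ dist z.1 z.2} :=
    (isClosed_le continuous_const continuous_dist).isCompact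
  obtain ⟨t, ht⟩ := hD.elim_finite_subcover (fun i : ℤ => {z : X × X | coord i z.1 ≠ coord i z.2})
    (fun i => by
      have h1 : Continuous fun z : X × X => (coord i z.1, coord i z.2) :=
        ((hc i).comp continuous_fst).prodMk ((hc i).comp continuous_snd)
      exact (isOpen_discrete {b : Bool × Bool | b.1 ≠ b.2}).preimage h1)
    (fun z hz => by
      simp only [Set.mem_iUnion, Set.mem_ofPred_eq]
      by_contra hcon
      push Not at hcon
      have := hinj z.1 z.2 hcon
      simp only [Set.mem_ofPred_eq, this, dist_self] at hz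
      linarith)
  refine ⟨t.sup Int.natAbs, fun x y hxy => ?_⟩
  by_contra hcon
  push Not at hcon
  have h1 := ht (show (x, y) ∈ {z : X × X | ε ≤ dist z.1 z.2} from hcon)
  simp only [Set.mem_iUnion, Set.mem_ofPred_eq] at h1
  obtain ⟨i, hi, hne⟩ := h1
  refine hne (hxy i ?_)
  have := Finset.le_sup (f := Int.natAbs) hi
  rw [Int.abs_eq_natAbs]
  exact_mod_cast this

theorem ks_mu_le : ksEntropy mu shift ≤ ((Real.log g : ℝ) : EReal) := by
  let _ : MetricSpace (ℤ → Bool) := TopologicalSpace.metrizableSpaceMetric (ℤ → Bool)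
  have h0 := g_pos
  refine ksEntropy_le_log_of_cover mu mu_shift _ ae_allowed g one_lt_g.le ?_
  intro ε hε
  obtain ⟨L, hL⟩ := small_cyl (X := ℤ → Bool) (fun i x => x i) (fun i => continuous_apply i)
    (fun x y h => funext h) hε
  refine ⟨(g ^ 2 + 1) * g ^ (2 * L), by positivity, fun n => ?_⟩
  classical
  set s : Finset (Fin (n + 2 * L + 1) → Bool) := Finset.univ.filter fun v =>
    ∀ i : ℕ, ∀ hi : i + 1 < n + 2 * L + 1, ¬ (v ⟨i, by omega⟩ = true ∧ v ⟨i + 1, hi⟩ = true) with hs
  refine ⟨s, inferInstance, fun v => {x : ℤ → Bool | ∀ i : Fin (n + 2 * L + 1),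
    x (((i : ℕ) : ℤ) - L) = v.1 i}, ?_, ?_, ?_⟩
  · rw [Fintype.card_coe]
    have := card_allowed (n + 2 * L) s (fun v hv => (Finset.mem_filter.1 hv).2)
    refine this.trans (le_of_eq ?_)
    rw [pow_add]; ring
  · intro x hx
    simp only [Set.mem_iUnion]
    refine ⟨⟨fun i => x (((i : ℕ) : ℤ) - L), ?_⟩, fun i => rfl⟩
    rw [hs, Finset.mem_filter]
    refine ⟨Finset.mem_univ _, fun i hi => ?_⟩
    have := hx ((i : ℤ) - L)
    rw [show ((i : ℤ) - L + 1) = ((i + 1 : ℕ) : ℤ) - L by push_cast; ring] at this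
    exact this
  · intro v x hx y hy j hj
    refine hL _ _ fun i hi => ?_
    rw [shift_iterate, shift_iterate]
    rw [abs_le] at hi
    have hk : 0 ≤ i + j + L := by omega
    obtain ⟨k, hk'⟩ := Int.eq_ofNat_of_zero_le hk
    have hkn : k < n + 2 * L + 1 := by omega
    have h1 := hx ⟨k, hkn⟩
    have h2 := hy ⟨k, hkn⟩
    rw [show i + (j : ℤ) = (k : ℤ) - L by omega]
    simp only at h1 h2
    rw [h1, h2]

theorem isErgodicChain : IsErgodicChain P p := by
  have h0 := g_pos
  have hP1 : ∀ a b, (P ^ 1) a b = P a b := fun a b => by rw [pow_one]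
  have hP2 : ∀ a b, (P ^ 2) a b = P a true * P true b + P a false * P false b := by
    intro a b
    rw [pow_two, Matrix.mul_apply, Fintype.sum_bool]
  have hP3 : ∀ a b, (P ^ 3) a b = (P ^ 2) a true * P true b + (P ^ 2) a false * P false b := by
    intro a b
    rw [pow_succ, Matrix.mul_apply, Fintype.sum_bool]
  refine ⟨P_nonneg, ?_, ?_, ?_, p_nonneg, ?_, ?_⟩
  · intro i
    rw [Fintype.sum_bool]
    exact P_row i
  · intro i j
    rcases i with _ | _ <;> rcases j with _ | _
    · exact ⟨1, by rw [hP1]; simp [P, h0]⟩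
    · exact ⟨1, by rw [hP1]; simp [P, h0]⟩
    · exact ⟨1, by rw [hP1]; simp [P]⟩
    · exact ⟨2, by rw [hP2]; simp [P, h0]⟩
  · intro i d hd
    rcases i with _ | _
    · have := hd 1 one_pos (by rw [hP1]; simp [P, h0])
      exact Nat.dvd_one.1 this
    · have h2 := hd 2 two_pos (by rw [hP2]; simp [P, h0])
      have h3 := hd 3 (by norm_num) (by rw [hP3, hP2, hP2]; simp [P, h0])
      have := (Nat.dvd_add_right h2 (c := 1)).1 (by simpa using h3)
      exact Nat.dvd_one.1 this
  · rw [Fintype.sum_bool]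
    simp only [p]
    simp
    field_simp
    ring
  · intro j
    rw [Fintype.sum_bool]
    have := g_sq
    rcases j with _ | _
    · simp only [p, P]
      simp
      field_simp
      linarith
    · simp only [p, P]
      simp
      field_simp

theorem expReturnTimes : ExpReturnTimes mu := by
  refine ⟨false, Real.exp 1, 1, Real.exp_pos _, one_pos, fun n => ?_⟩
  rcases Nat.lt_or_ge n 2 with hn | hn
  · have h1 : IsProbabilityMeasure (ProbabilityTheory.cond mu {x : ℤ → Bool | x 0 = false}) := by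
      refine cond_isProbabilityMeasure ?_
      rw [mu_coord]
      have h0 := g_pos
      have : 0 < p false := by simp [p]; positivity
      simpa using this
    refine le_trans prob_le_one ?_
    rw [← ENNReal.ofReal_one]
    refine ENNReal.ofReal_le_ofReal ?_
    rw [← Real.exp_add]
    refine Real.one_le_exp ?_
    have : (n : ℝ) ≤ 1 := by exact_mod_cast Nat.lt_succ_iff.1 hn
    linarith
  · refine le_trans (le_of_eq ?_) zero_le
    refine ProbabilityTheory.cond_absolutelyContinuous ?_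
    have h2 : mu {x : ℤ → Bool | ¬ ∀ n : ℤ, ¬ (x n = true ∧ x (n + 1) = true)} = 0 := ae_allowed
    refine measure_mono_null ?_ h2
    intro x hx hall
    refine hall 1 ⟨?_, ?_⟩
    · have := hx 1 le_rfl (by omega)
      simpa using this
    · have := hx 2 (by norm_num) hn
      simpa using this

end Pool.Agent.TH984.FC.Golden
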