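import Pool.Agent.TH984.FC.Iid

/-! A probability measure on a standard Borel space all of whose finite partitions have entropy at
most `h` is purely atomic, with Shannon entropy at most `h`. -/

set_option autoImplicit false

open MeasureTheory ProbabilityTheory Filter Topology
open scoped ENNReal NNReal
open Pool.Agent.Helper179.KS

namespace Pool.Agent.TH984.FC

variable {A : Type*} [MeasurableSpace A]

lemma shannon_fintype_le (q : Measure A) [IsProbabilityMeasure q] {h : ℝ}
    (H : ∀ (k : ℕ) (κ : A → Fin k), Measurable κ → shannonEntropy q κ ≤ h)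
    {ι : Type} [Fintype ι] [MeasurableSpace ι] [DiscreteMeasurableSpace ι] (κ : A → ι)
    (hκ : Measurable κ) : ∑ i, Real.negMulLog (q.real (κ ⁻¹' {i})) ≤ h := by
  set e := Fintype.equivFin ι with he
  have h1 := H (Fintype.card ι) (fun a => e (κ a)) ((measurable_of_finite e).comp hκ)
  unfold shannonEntropy at h1
  rw [← Fintype.sum_equiv e (fun i => Real.negMulLog (q.real (κ ⁻¹' {i}))) _ ?_] at h1
  · exact h1
  · intro i
    congr 2
    ext a
    simp

theorem atoms [StandardBorelSpace A] (q : Measure A) [IsProbabilityMeasure q] {h : ℝ}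
    (H : ∀ (k : ℕ) (κ : A → Fin k), Measurable κ → shannonEntropy q κ ≤ h) :
    Measurable (fun a => q.real {a}) ∧ (∀ᵐ a ∂q, 0 < q.real {a}) ∧
      Integrable (fun a => -Real.log (q.real {a})) q ∧
      ∫ a, -Real.log (q.real {a}) ∂q ≤ h := by
  obtain ⟨f, hf, hinj⟩ := MeasurableSpace.measurable_injection_nat_bool_of_countablySeparated A
  set κ : (n : ℕ) → A → (Fin n → Bool) := fun n a i => f a i with hκdef
  have hκ : ∀ n, Measurable (κ n) := fun n =>
    measurable_pi_lambda _ fun i => (measurable_pi_apply (i : ℕ)).comp hf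
  -- mass of the piece containing `a`
  set g : ℕ → A → ℝ := fun n a => q.real (κ n ⁻¹' {κ n a}) with hg
  have hgm : ∀ n, Measurable (g n) := fun n =>
    (measurable_of_finite (fun w : Fin n → Bool => q.real (κ n ⁻¹' {w}))).comp (hκ n)
  have hg1 : ∀ n a, g n a ≤ 1 := fun n a => measureReal_le_one
  have hg0 : ∀ n a, 0 ≤ g n a := fun n a => measureReal_nonneg
  have hpiece : ∀ n a, MeasurableSet (κ n ⁻¹' {κ n a}) := fun n a =>
    hκ n (measurableSet_singleton _)
  have hlim : ∀ a, Tendsto (fun n => g n a) atTop (𝓝 (q.real {a})) := by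
    intro a
    have hInter : ⋂ n, κ n ⁻¹' {κ n a} = {a} := by
      ext b
      simp only [Set.mem_iInter, Set.mem_preimage, Set.mem_singleton_iff]
      constructor
      · intro hb
        apply hinj
        funext i
        exact congrFun (hb (i + 1)) ⟨i, Nat.lt_succ_self i⟩
      · rintro rfl n; rfl
    have h1 := tendsto_measure_iInter_atTop (μ := q) (s := fun n => κ n ⁻¹' {κ n a})
      (fun n => (hpiece n a).nullMeasurableSet) ?_ ⟨0, measure_ne_top _ _⟩
    · rw [hInter] at h1
      exact (ENNReal.tendsto_toReal (measure_ne_top q {a})).comp h1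
    · intro m n hmn b hb
      simp only [Set.mem_preimage, Set.mem_singleton_iff] at hb ⊢
      funext i
      exact congrFun hb ⟨i, lt_of_lt_of_le i.2 hmn⟩
  have hmeas : Measurable (fun a => q.real {a}) :=
    measurable_of_tendsto_metrizable hgm (tendsto_pi_nhds.2 hlim)
  -- a.e. all pieces have positive mass
  have hpos : ∀ᵐ a ∂q, ∀ n, 0 < g n a := by
    rw [ae_all_iff]
    intro n
    have h1 : {a | ¬ 0 < g n a} ⊆ ⋃ w ∈ {w : Fin n → Bool | q (κ n ⁻¹' {w}) = 0}, κ n ⁻¹' {w} := by
      intro a ha
      simp only [Set.mem_ofPred_eq, not_lt] at ha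
      have h2 : g n a = 0 := le_antisymm ha (hg0 n a)
      simp only [hg, Measure.real] at h2
      rw [ENNReal.toReal_eq_zero_iff] at h2
      rcases h2 with h2 | h2
      · simp only [Set.mem_iUnion]
        exact ⟨κ n a, h2, rfl⟩
      · exact absurd h2 (measure_ne_top _ _)
    rw [ae_iff]
    refine measure_mono_null h1 ?_
    rw [measure_biUnion_null_iff (Set.to_countable _)]
    intro w hw
    exact hw
  -- lower integrals
  have hint : ∀ n, ∫⁻ a, ENNReal.ofReal (-Real.log (g n a)) ∂q ≤ ENNReal.ofReal h := by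
    intro n
    have h1 : ∫⁻ a, ENNReal.ofReal (-Real.log (g n a)) ∂q =
        ∫⁻ w, ENNReal.ofReal (-Real.log (q.real (κ n ⁻¹' {w}))) ∂(q.map (κ n)) := by
      rw [lintegral_map (measurable_of_finite _) (hκ n)]
    rw [h1, lintegral_fintype]
    have h2 : ∀ w : Fin n → Bool, ENNReal.ofReal (-Real.log (q.real (κ n ⁻¹' {w}))) *
        (q.map (κ n)) {w} = ENNReal.ofReal (Real.negMulLog (q.real (κ n ⁻¹' {w}))) := by
      intro w
      rw [Measure.map_apply (hκ n) (measurableSet_singleton w),
        ← ofReal_measureReal (μ := q) (s := κ n ⁻¹' {w}), mul_comm,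
        ← ENNReal.ofReal_mul measureReal_nonneg]
      congr 1
      unfold Real.negMulLog
      ring
    rw [Finset.sum_congr rfl fun w _ => h2 w, ← ENNReal.ofReal_sum_of_nonneg
      (fun w _ => Real.negMulLog_nonneg measureReal_nonneg measureReal_le_one)]
    exact ENNReal.ofReal_le_ofReal (shannon_fintype_le q H (κ n) (hκ n))
  have hfatou : ∫⁻ a, liminf (fun n => ENNReal.ofReal (-Real.log (g n a))) atTop ∂q ≤
      ENNReal.ofReal h := by
    refine (lintegral_liminf_le fun n => ?_).trans ?_
    · exact ENNReal.measurable_ofReal.comp ((Real.measurable_log.comp (hgm n)).neg)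
    · refine liminf_le_of_le (by isBoundedDefault) fun b hb => ?_
      obtain ⟨n, hn⟩ := hb.exists
      exact hn.trans (hint n)
  have hLmeas : Measurable (fun a => liminf (fun n => ENNReal.ofReal (-Real.log (g n a))) atTop) :=
    Measurable.liminf fun n =>
      ENNReal.measurable_ofReal.comp ((Real.measurable_log.comp (hgm n)).neg)
  have hfin : ∀ᵐ a ∂q, liminf (fun n => ENNReal.ofReal (-Real.log (g n a))) atTop < ∞ :=
    ae_lt_top hLmeas (ne_top_of_le_ne_top ENNReal.ofReal_ne_top hfatou)
  have hatom : ∀ᵐ a ∂q, 0 < q.real {a} := by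
    filter_upwards [hpos, hfin] with a ha1 ha2
    rcases eq_or_lt_of_le (measureReal_nonneg : 0 ≤ q.real {a}) with h0 | h0
    · exfalso
      have h1 : Tendsto (fun n => g n a) atTop (𝓝[>] 0) := by
        rw [tendsto_nhdsWithin_iff]
        refine ⟨?_, Eventually.of_forall fun n => ha1 n⟩
        have := hlim a
        rwa [← h0] at this
      have h2 : Tendsto (fun n => ENNReal.ofReal (-Real.log (g n a))) atTop (𝓝 ∞) := by
        refine ENNReal.tendsto_ofReal_atTop.comp ?_
        exact tendsto_neg_atBot_atTop.comp (Real.tendsto_log_nhdsGT_zero.comp h1)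
      rw [h2.liminf_eq] at ha2
      exact lt_irrefl _ ha2
    · exact h0
  have hLeq : ∀ᵐ a ∂q, liminf (fun n => ENNReal.ofReal (-Real.log (g n a))) atTop =
      ENNReal.ofReal (-Real.log (q.real {a})) := by
    filter_upwards [hatom] with a ha
    have h1 : Tendsto (fun n => ENNReal.ofReal (-Real.log (g n a))) atTop
        (𝓝 (ENNReal.ofReal (-Real.log (q.real {a})))) :=
      (ENNReal.continuous_ofReal.tendsto _).comp (((hlim a).log ha.ne').neg)
    exact h1.liminf_eq
  have hLI : ∫⁻ a, ENNReal.ofReal (-Real.log (q.real {a})) ∂q ≤ ENNReal.ofReal h := by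
    rw [← lintegral_congr_ae hLeq]; exact hfatou
  have hnn : ∀ a, 0 ≤ -Real.log (q.real {a}) := fun a => by
    rw [neg_nonneg]; exact Real.log_nonpos measureReal_nonneg measureReal_le_one
  have hlogm : Measurable (fun a => -Real.log (q.real {a})) := (Real.measurable_log.comp hmeas).neg
  have hI : Integrable (fun a => -Real.log (q.real {a})) q := by
    refine ⟨hlogm.aestronglyMeasurable, ?_⟩
    rw [hasFiniteIntegral_iff_ofReal (Eventually.of_forall hnn)]
    exact lt_of_le_of_lt hLI ENNReal.ofReal_lt_top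
  have h0 : 0 ≤ h := by
    have h1 := H 1 (fun _ => 0) measurable_const
    refine le_trans ?_ h1
    exact shannonEntropy_nonneg q (P := fun _ => (0 : Fin 1))
  refine ⟨hmeas, hatom, hI, ?_⟩
  have h2 := ofReal_integral_eq_lintegral_ofReal hI (Eventually.of_forall hnn)
  rw [← h2] at hLI
  exact (ENNReal.ofReal_le_ofReal_iff h0).1 hLI

end Pool.Agent.TH984.FC
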