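import Mathlib
import Pool.Agent.Helper179.KSDefs

/-! Definitions for MP_207c40_pr: stationary Markov chains, iid processes, factor maps and coding
windows. The Kolmogorov-Sinai entropy is `Pool.Agent.Helper179.KS.ksEntropy`. -/

set_option autoImplicit false

open MeasureTheory ProbabilityTheory Filter Topology
open scoped ENNReal NNReal

namespace Pool.Agent.TH984.FC

/-- The left shift on two-sided sequences. -/
def shift {A : Type*} (x : ℤ → A) : ℤ → A := fun n => x (n + 1)

/-- The law on `A^ℤ` of the iid process with marginal law `q`. -/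
noncomputable def iid {A : Type*} [MeasurableSpace A] (q : Measure A) [IsProbabilityMeasure q] :
    Measure (ℤ → A) :=
  Measure.infinitePi (fun _ : ℤ => q)

/-- `P` is an irreducible aperiodic transition matrix on the finite set `S` with stationary
probability vector `p`. -/
structure IsErgodicChain {S : Type*} [Fintype S] [DecidableEq S] (P : Matrix S S ℝ) (p : S → ℝ) :
    Prop where
  nonneg : ∀ i j, 0 ≤ P i j
  row_sum : ∀ i, ∑ j, P i j = 1
  irreducible : ∀ i j, ∃ n : ℕ, 0 < (P ^ n) i j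
  aperiodic : ∀ i, ∀ d : ℕ, (∀ n : ℕ, 0 < n → 0 < (P ^ n) i i → d ∣ n) → d = 1
  p_nonneg : ∀ i, 0 ≤ p i
  p_sum : ∑ i, p i = 1
  stationary : ∀ j, ∑ i, p i * P i j = p j

/-- `μ` is the law on `S^ℤ` of the two-sided stationary Markov chain with transition matrix `P` and
one-dimensional marginal `p`. -/
def IsMarkovLaw {S : Type*} [MeasurableSpace S] (P : Matrix S S ℝ) (p : S → ℝ)
    (μ : Measure (ℤ → S)) : Prop :=
  IsProbabilityMeasure μ ∧ ∀ (m : ℤ) (n : ℕ) (w : ℕ → S),
    μ {x | ∀ i : ℕ, i ≤ n → x (m + i) = w i} =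
      ENNReal.ofReal (p (w 0) * ∏ i ∈ Finset.range n, P (w i) (w (i + 1)))

/-- Exponential return times: for some state `s`, the probability, given `x_0 = s`, that
`x_1, ..., x_n` all differ from `s` is at most `C e^{-cn}`. -/
def ExpReturnTimes {S : Type*} [MeasurableSpace S] (μ : Measure (ℤ → S)) : Prop :=
  ∃ s : S, ∃ C c : ℝ, 0 < C ∧ 0 < c ∧ ∀ n : ℕ,
    ProbabilityTheory.cond μ {x | x 0 = s} {x | ∀ k : ℕ, 1 ≤ k → k ≤ n → x k ≠ s} ≤
      ENNReal.ofReal (C * Real.exp (-(c * n)))

/-- `φ` is a factor map from `ν` to `μ`: measurable, pushes `ν` to `μ`, and commutes with the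
shift almost everywhere. -/
structure IsFactorMap {A B : Type*} [MeasurableSpace A] [MeasurableSpace B] (ν : Measure (ℤ → A))
    (μ : Measure (ℤ → B)) (φ : (ℤ → A) → (ℤ → B)) : Prop where
  measurable : Measurable φ
  map_eq : ν.map φ = μ
  commutes : ∀ᵐ y ∂ν, φ (shift y) = shift (φ y)

/-- The coordinates `y_{-r}, ..., y_r` determine `φ(y)_0` (among points of the set `G`). -/
def Determined {A B : Type*} (G : Set (ℤ → A)) (φ : (ℤ → A) → (ℤ → B)) (r : ℕ) (y : ℤ → A) :
    Prop :=
  ∀ y' ∈ G, (∀ i : ℤ, |i| ≤ r → y' i = y i) → φ y' 0 = φ y 0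

/-- `φ` is finitary and its coding window `R(y)`, the least `r` for which `y_{-r}, ..., y_r`
determine `φ(y)_0`, has exponential tails: off a null set, `ν(R > r) ≤ C e^{-cr}` for all `r`. -/
def ExpCodingWindow {A B : Type*} [MeasurableSpace A] (ν : Measure (ℤ → A))
    (φ : (ℤ → A) → (ℤ → B)) : Prop :=
  ∃ G : Set (ℤ → A), ν Gᶜ = 0 ∧ ∃ C c : ℝ, 0 < C ∧ 0 < c ∧ ∀ r : ℕ,
    ν {y | ¬ Determined G φ r y} ≤ ENNReal.ofReal (C * Real.exp (-(c * r)))

end Pool.Agent.TH984.FC
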