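import Pool.Agent.TH984.FC.Iid
import Pool.Agent.Helper179.KSSharp

/-! The golden mean chain with its Parry measure, realised as a factor of a Bernoulli process. -/

set_option autoImplicit false

open MeasureTheory ProbabilityTheory Filter Topology
open scoped ENNReal NNReal
open Pool.Agent.Helper179.KS

namespace Pool.Agent.TH984.FC.Golden

/-- the golden ratio -/
noncomputable def g : ℝ := Real.goldenRatio

lemma g_pos : 0 < g := Real.goldenRatio_pos
lemma one_lt_g : 1 < g := Real.one_lt_goldenRatio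
lemma g_sq : g ^ 2 = g + 1 := Real.goldenRatio_sq

/-- transition matrix -/
noncomputable def P : Matrix Bool Bool ℝ := fun a b =>
  if a then (if b then 0 else 1) else (if b then (g ^ 2)⁻¹ else g⁻¹)

/-- stationary vector -/
noncomputable def p : Bool → ℝ := fun a => if a then 1 / (g ^ 2 + 1) else g ^ 2 / (g ^ 2 + 1)

lemma inv_add : (g ^ 2)⁻¹ + g⁻¹ = 1 := by
  have h := g_sq
  have h0 := g_pos
  field_simp
  linarith

/-- Bernoulli measure -/
noncomputable def qB : Measure Bool :=
  ENNReal.ofReal (g ^ 2)⁻¹ • Measure.dirac true + ENNReal.ofReal g⁻¹ • Measure.dirac false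

instance : IsProbabilityMeasure qB := by
  refine ⟨?_⟩
  have h0 := g_pos
  simp only [qB, Measure.coe_add, Measure.coe_smul, Pi.add_apply, Pi.smul_apply, measure_univ,
    smul_eq_mul, mul_one]
  rw [← ENNReal.ofReal_add (by positivity) (by positivity), inv_add, ENNReal.ofReal_one]

lemma qB_true : qB {true} = ENNReal.ofReal (g ^ 2)⁻¹ := by
  simp [qB]

/-- the run of `true`s ending at `n` has odd length -/
def runOdd (u : ℤ → Bool) (n : ℤ) : Prop :=
  ∃ k : ℕ, (∀ i : ℕ, i < 2 * k + 1 → u (n - i) = true) ∧ u (n - (2 * k + 1 : ℕ)) = false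

open Classical in
/-- the coding map -/
noncomputable def Phi (u : ℤ → Bool) : ℤ → Bool := fun n => decide (runOdd u n)

lemma Phi_true (u : ℤ → Bool) (n : ℤ) : Phi u n = true ↔ runOdd u n := by
  simp [Phi]

lemma Phi_false (u : ℤ → Bool) (n : ℤ) : Phi u n = false ↔ ¬ runOdd u n := by
  simp [Phi]

lemma runOdd_succ (u : ℤ → Bool) (n : ℤ) (hfin : ∃ k : ℕ, u (n - k) = false) :
    runOdd u (n + 1) ↔ (u (n + 1) = true ∧ ¬ runOdd u n) := by
  constructor
  · rintro ⟨k, hk1, hk2⟩
    refine ⟨by simpa using hk1 0 (by omega), ?_⟩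
    rintro ⟨k', hk1', hk2'⟩
    rcases Nat.lt_or_ge (2 * k) (2 * k' + 1) with h | h
    · have h1 := hk1' (2 * k) h
      rw [show (n + 1 - (2 * k + 1 : ℕ) : ℤ) = n - (2 * k : ℕ) by push_cast; ring] at hk2
      rw [h1] at hk2
      exact absurd hk2 (by simp)
    · have h1 := hk1 (2 * k' + 1 + 1) (by omega)
      rw [show (n + 1 - (2 * k' + 1 + 1 : ℕ) : ℤ) = n - (2 * k' + 1 : ℕ) by push_cast; ring] at h1
      rw [h1] at hk2'
      exact absurd hk2' (by simp)
  · rintro ⟨h1, h2⟩
    classical
    have hj := Nat.find_spec hfin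
    have hmin : ∀ i : ℕ, i < Nat.find hfin → u (n - i) = true := by
      intro i hi
      have := Nat.find_min hfin hi
      simpa using this
    rcases Nat.even_or_odd' (Nat.find hfin) with ⟨k, hk | hk⟩
    · refine ⟨k, ?_, ?_⟩
      · intro i hi
        rcases i with _ | i
        · simpa using h1
        · rw [show (n + 1 - (i + 1 : ℕ) : ℤ) = n - i by push_cast; ring]
          exact hmin i (by omega)
      · rw [show (n + 1 - (2 * k + 1 : ℕ) : ℤ) = n - (2 * k : ℕ) by push_cast; ring, ← hk]
        exact hj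
    · exact absurd ⟨k, fun i hi => hmin i (by omega), by rw [← hk]; exact hj⟩ h2

/-- the sigma-algebra of the coordinates up to `n` -/
@[reducible] def mF (n : ℤ) : MeasurableSpace (ℤ → Bool) :=
  ⨆ j ∈ Set.Iic n, MeasurableSpace.comap (fun u : ℤ → Bool => u j) inferInstance

lemma mF_mono {n n' : ℤ} (h : n ≤ n') : mF n ≤ mF n' :=
  biSup_mono fun _ hj => le_trans hj h

lemma mF_le (n : ℤ) : mF n ≤ MeasurableSpace.pi := by
  refine iSup₂_le fun j _ => ?_
  exact (measurable_pi_apply j).comap_le

lemma mF_coord {n j : ℤ} (hj : j ≤ n) (b : Bool) : MeasurableSet[mF n] {u : ℤ → Bool | u j = b} := by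
  have h1 : MeasurableSpace.comap (fun u : ℤ → Bool => u j) inferInstance ≤ mF n :=
    le_biSup (fun j => MeasurableSpace.comap (fun u : ℤ → Bool => u j) inferInstance) hj
  refine h1 _ ⟨{b}, measurableSet_singleton _, ?_⟩
  ext u; simp

lemma mF_runOdd (n : ℤ) : MeasurableSet[mF n] {u : ℤ → Bool | runOdd u n} := by
  have h1 : {u : ℤ → Bool | runOdd u n} = ⋃ k : ℕ, ((⋂ i : ℕ, ⋂ (_ : i < 2 * k + 1),
      {u : ℤ → Bool | u (n - i) = true}) ∩ {u : ℤ → Bool | u (n - (2 * k + 1 : ℕ)) = false}) := by
    ext u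
    simp [runOdd]
  rw [h1]
  refine @MeasurableSet.iUnion _ _ (mF n) _ _ fun k => ?_
  refine @MeasurableSet.inter _ (mF n) _ _ ?_ (mF_coord (by omega) _)
  refine @MeasurableSet.iInter _ _ (mF n) _ _ fun i => ?_
  refine @MeasurableSet.iInter _ _ (mF n) _ _ fun _ => ?_
  exact mF_coord (by omega) _

lemma mF_Phi {n j : ℤ} (hj : j ≤ n) (b : Bool) :
    MeasurableSet[mF n] {u : ℤ → Bool | Phi u j = b} := by
  have h1 := mF_mono hj _ (mF_runOdd j)
  cases b
  · have h2 : {u : ℤ → Bool | Phi u j = false} = {u : ℤ → Bool | runOdd u j}ᶜ := by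
      ext u; simp [Phi_false]
    rw [h2]
    exact @MeasurableSet.compl _ _ (mF n) h1
  · have h2 : {u : ℤ → Bool | Phi u j = true} = {u : ℤ → Bool | runOdd u j} := by
      ext u; simp [Phi_true]
    rw [h2]
    exact h1

lemma mF_word (m : ℤ) (n : ℕ) (w : ℕ → Bool) :
    MeasurableSet[mF (m + n)] {u : ℤ → Bool | ∀ i : ℕ, i ≤ n → Phi u (m + i) = w i} := by
  have h1 : {u : ℤ → Bool | ∀ i : ℕ, i ≤ n → Phi u (m + i) = w i} =
      ⋂ i : ℕ, ⋂ (_ : i ≤ n), {u : ℤ → Bool | Phi u (m + i) = w i} := by
    ext u; simp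
  rw [h1]
  refine @MeasurableSet.iInter _ _ (mF (m + n)) _ _ fun i => ?_
  refine @MeasurableSet.iInter _ _ (mF (m + n)) _ _ fun hi => ?_
  exact mF_Phi (by omega) _

lemma measurable_Phi : Measurable Phi := by
  refine measurable_pi_lambda _ fun n => ?_
  refine measurable_to_bool ?_
  exact mF_le n _ (mF_Phi le_rfl true)

/-- the Bernoulli process -/
noncomputable def nu : Measure (ℤ → Bool) := iid qB

instance : IsProbabilityMeasure nu := by unfold nu; infer_instance

/-- the law of the golden mean chain -/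
noncomputable def mu : Measure (ℤ → Bool) := nu.map Phi

instance : IsProbabilityMeasure mu := Measure.isProbabilityMeasure_map measurable_Phi.aemeasurable

lemma indep_next {n : ℤ} {E : Set (ℤ → Bool)} (hE : MeasurableSet[mF n] E) :
    nu (E ∩ {u | u (n + 1) = true}) = nu E * ENNReal.ofReal (g ^ 2)⁻¹ := by
  have h1 : iIndepFun (fun (i : ℤ) (u : ℤ → Bool) => u i) nu :=
    iIndepFun_infinitePi (P := fun _ : ℤ => qB) (X := fun _ => id) (fun _ => measurable_id)
  have h2 : iIndep (fun j : ℤ => MeasurableSpace.comap (fun u : ℤ → Bool => u j) inferInstance)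
      nu := h1
  have h3 := indep_iSup_of_disjoint (fun j : ℤ => (measurable_pi_apply j).comap_le) h2
    (S := Set.Iic n) (T := {n + 1}) (by simp)
  rw [Indep_iff] at h3
  have h4 := h3 E {u | u (n + 1) = true} hE ?_
  · rw [h4]
    congr 1
    have h5 : MeasurePreserving (fun y : ℤ → Bool => y (n + 1)) nu qB :=
      measurePreserving_eval_infinitePi (fun _ : ℤ => qB) (n + 1)
    have h6 := h5.measure_preimage (measurableSet_singleton true).nullMeasurableSet
    rw [← qB_true, ← h6]
    rfl
  · have h5 : MeasurableSpace.comap (fun u : ℤ → Bool => u (n + 1)) inferInstance ≤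
        ⨆ i ∈ ({n + 1} : Set ℤ), MeasurableSpace.comap (fun u : ℤ → Bool => u i) inferInstance :=
      le_biSup (fun j => MeasurableSpace.comap (fun u : ℤ → Bool => u j) inferInstance)
        (Set.mem_singleton _)
    refine h5 _ ⟨{true}, measurableSet_singleton _, ?_⟩
    ext u; simp

lemma ae_fin (n : ℤ) : ∀ᵐ u ∂nu, ∃ k : ℕ, u (n - k) = false := by
  rw [ae_iff]
  have h1 : ∀ K : ℕ, nu {u : ℤ → Bool | ¬ ∃ k : ℕ, u (n - k) = false} ≤
      (ENNReal.ofReal (g ^ 2)⁻¹) ^ K := by
    intro K
    have h2 := iid_box qB (fun i : Fin K => n - ((i : ℕ) : ℤ))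
      (fun a b h => by
        have : ((a : ℕ) : ℤ) = ((b : ℕ) : ℤ) := by simpa using h
        exact Fin.ext (by exact_mod_cast this))
      (fun _ => {true}) (fun _ => measurableSet_singleton _)
    rw [Finset.prod_const, Finset.card_univ, Fintype.card_fin, qB_true] at h2
    rw [← h2]
    refine measure_mono fun u hu i => ?_
    simp only [Set.mem_ofPred_eq, not_exists, Bool.not_eq_false] at hu
    exact hu _
  have h3 : ENNReal.ofReal (g ^ 2)⁻¹ < 1 := by
    rw [← ENNReal.ofReal_one, ENNReal.ofReal_lt_ofReal_iff one_pos]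
    rw [inv_lt_one₀ (by have := g_pos; positivity)]
    nlinarith [one_lt_g]
  refine le_antisymm ?_ zero_le
  exact ge_of_tendsto' (ENNReal.tendsto_pow_atTop_nhds_zero_of_lt_one h3) h1

lemma ae_succ (n : ℤ) : ∀ᵐ u ∂nu, (Phi u (n + 1) = true ↔ (u (n + 1) = true ∧ Phi u n = false)) := by
  filter_upwards [ae_fin n] with u hu
  rw [Phi_true, Phi_false, runOdd_succ u n hu]

lemma P_row (a : Bool) : P a true + P a false = 1 := by
  cases a
  · simp only [P]; simp; exact inv_add
  · simp [P]

lemma P_nonneg (a b : Bool) : 0 ≤ P a b := by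
  have := g_pos
  cases a <;> cases b <;> simp [P] <;> positivity

lemma step_true (m : ℤ) (n : ℕ) (w : ℕ → Bool) :
    nu ({u : ℤ → Bool | ∀ i : ℕ, i ≤ n → Phi u (m + i) = w i} ∩ {u | Phi u (m + n + 1) = true}) =
      nu {u : ℤ → Bool | ∀ i : ℕ, i ≤ n → Phi u (m + i) = w i} *
        ENNReal.ofReal (P (w n) true) := by
  set E := {u : ℤ → Bool | ∀ i : ℕ, i ≤ n → Phi u (m + i) = w i} with hE
  have hEn : ∀ u ∈ E, Phi u (m + n) = w n := fun u hu => hu n le_rfl
  cases hw : w n
  · have h1 : nu (E ∩ {u | Phi u (m + n + 1) = true}) = nu (E ∩ {u | u (m + n + 1) = true}) := by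
      refine measure_congr ?_
      filter_upwards [ae_succ (m + n)] with u hu
      refine propext (and_congr_right fun h => ?_)
      have h2 : Phi u (m + n) = false := by rw [hEn u h, hw]
      constructor
      · intro h3; exact (hu.1 h3).1
      · intro h3; exact hu.2 ⟨h3, h2⟩
    rw [h1, indep_next (mF_word m n w)]
    simp [P, hE]
  · have h1 : nu (E ∩ {u | Phi u (m + n + 1) = true}) = nu ∅ := by
      refine measure_congr ?_
      filter_upwards [ae_succ (m + n)] with u hu
      refine propext ⟨fun h => ?_, fun h => h.elim⟩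
      have h2 : Phi u (m + n) = true := by rw [hEn u h.1, hw]
      have h3 := (hu.1 h.2).2
      rw [h2] at h3
      exact absurd h3 (by simp)
    rw [h1]
    simp [P]

lemma step (m : ℤ) (n : ℕ) (w : ℕ → Bool) :
    nu {u : ℤ → Bool | ∀ i : ℕ, i ≤ n + 1 → Phi u (m + i) = w i} =
      nu {u : ℤ → Bool | ∀ i : ℕ, i ≤ n → Phi u (m + i) = w i} *
        ENNReal.ofReal (P (w n) (w (n + 1))) := by
  have hset : {u : ℤ → Bool | ∀ i : ℕ, i ≤ n + 1 → Phi u (m + i) = w i} =
      {u : ℤ → Bool | ∀ i : ℕ, i ≤ n → Phi u (m + i) = w i} ∩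
        {u | Phi u (m + n + 1) = w (n + 1)} := by
    ext u
    simp only [Set.mem_inter_iff, Set.mem_ofPred_eq]
    constructor
    · intro h
      refine ⟨fun i hi => h i (by omega), ?_⟩
      have := h (n + 1) le_rfl
      rw [← this]
      congr 1
      push_cast
      ring
    · rintro ⟨h1, h2⟩ i hi
      rcases Nat.lt_or_ge i (n + 1) with h | h
      · exact h1 i (by omega)
      · obtain rfl : i = n + 1 := by omega
        rw [← h2]
        congr 1
        push_cast
        ring
  rw [hset]
  cases hw : w (n + 1)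
  · have h1 := step_true m n w
    set E := {u : ℤ → Bool | ∀ i : ℕ, i ≤ n → Phi u (m + i) = w i} with hE
    have h2 : E ∩ {u | Phi u (m + n + 1) = false} = E \ {u | Phi u (m + n + 1) = true} := by
      ext u; simp
    have h3 := measure_inter_add_sdiff (μ := nu) E (mF_le _ _ (mF_Phi (j := m + n + 1) le_rfl true))
    rw [h2]
    rw [h1] at h3
    have h4 : nu E = nu E * ENNReal.ofReal (P (w n) true) +
        nu E * ENNReal.ofReal (P (w n) false) := by
      rw [← mul_add, ← ENNReal.ofReal_add (P_nonneg _ _) (P_nonneg _ _), P_row,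
        ENNReal.ofReal_one, mul_one]
    have h5 : nu E * ENNReal.ofReal (P (w n) true) + nu (E \ {u | Phi u (m + n + 1) = true}) =
        nu E * ENNReal.ofReal (P (w n) true) + nu E * ENNReal.ofReal (P (w n) false) := by
      rw [h3]; exact h4
    exact (ENNReal.add_right_inj (ENNReal.mul_ne_top (measure_ne_top _ _)
      ENNReal.ofReal_ne_top)).1 h5
  · exact step_true m n w

lemma Phi_shift (u : ℤ → Bool) : Phi (shift u) = shift (Phi u) := by
  funext n
  have h : runOdd (shift u) n ↔ runOdd u (n + 1) := by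
    unfold runOdd shift
    refine exists_congr fun k => ?_
    have e : ∀ j : ℤ, n - j + 1 = n + 1 - j := fun j => by ring
    simp only [e]
  show Phi (shift u) n = Phi u (n + 1)
  rcases hb : Phi u (n + 1) with _ | _
  · rw [Phi_false] at hb ⊢
    exact fun h' => hb (h.1 h')
  · rw [Phi_true] at hb ⊢
    exact h.2 hb

lemma mu_shift : MeasurePreserving shift mu mu := by
  refine ⟨measurable_shift, ?_⟩
  unfold mu
  rw [Measure.map_map measurable_shift measurable_Phi]
  have h1 : shift ∘ Phi = Phi ∘ shift := by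
    funext u; exact (Phi_shift u).symm
  rw [h1, ← Measure.map_map measurable_Phi measurable_shift]
  congr 1
  exact (iid_shift qB).map_eq

lemma mu_apply {E : Set (ℤ → Bool)} (hE : MeasurableSet E) : mu E = nu (Phi ⁻¹' E) :=
  Measure.map_apply measurable_Phi hE

lemma meas_word (m : ℤ) (n : ℕ) (w : ℕ → Bool) :
    MeasurableSet {x : ℤ → Bool | ∀ i : ℕ, i ≤ n → x (m + i) = w i} := by
  have h1 : {x : ℤ → Bool | ∀ i : ℕ, i ≤ n → x (m + i) = w i} =
      ⋂ i : ℕ, ⋂ (_ : i ≤ n), {x : ℤ → Bool | x (m + i) = w i} := by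
    ext u; simp
  rw [h1]
  refine MeasurableSet.iInter fun i => MeasurableSet.iInter fun hi => ?_
  exact measurableSet_eq_fun (measurable_pi_apply _) measurable_const

lemma mu_step (m : ℤ) (n : ℕ) (w : ℕ → Bool) :
    mu {x : ℤ → Bool | ∀ i : ℕ, i ≤ n + 1 → x (m + i) = w i} =
      mu {x : ℤ → Bool | ∀ i : ℕ, i ≤ n → x (m + i) = w i} *
        ENNReal.ofReal (P (w n) (w (n + 1))) := by
  rw [mu_apply (meas_word m (n + 1) w), mu_apply (meas_word m n w)]
  exact step m n w

lemma mu_coord (m : ℤ) (b : Bool) : mu {x : ℤ → Bool | x m = b} = ENNReal.ofReal (p b) := by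
  have hm : ∀ (k : ℤ) (c : Bool), MeasurableSet {x : ℤ → Bool | x k = c} := fun k c =>
    measurableSet_eq_fun (measurable_pi_apply _) measurable_const
  -- two-letter words
  have h2 : ∀ c : Bool, mu {x : ℤ → Bool | x m = c ∧ x (m + 1) = true} =
      mu {x : ℤ → Bool | x m = c} * ENNReal.ofReal (P c true) := by
    intro c
    have h3 := mu_step m 0 (fun i => if i = 0 then c else true)
    have h4 : {x : ℤ → Bool | ∀ i : ℕ, i ≤ 0 + 1 → x (m + i) = (fun i => if i = 0 then c else true) i}
        = {x : ℤ → Bool | x m = c ∧ x (m + 1) = true} := by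
      ext x
      simp only [Set.mem_ofPred_eq]
      constructor
      · intro h
        exact ⟨by simpa using h 0 (by omega), by simpa using h 1 (by omega)⟩
      · rintro ⟨ha, hb⟩ i hi
        interval_cases i
        · simpa using ha
        · simpa using hb
    have h5 : {x : ℤ → Bool | ∀ i : ℕ, i ≤ 0 → x (m + i) = (fun i => if i = 0 then c else true) i}
        = {x : ℤ → Bool | x m = c} := by
      ext x
      simp only [Set.mem_ofPred_eq]
      constructor
      · intro h
        simpa using h 0 (by omega)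
      · intro ha i hi
        interval_cases i
        simpa using ha
    rw [h4, h5] at h3
    simpa using h3
  have hshift : mu {x : ℤ → Bool | x (m + 1) = true} = mu {x : ℤ → Bool | x m = true} := by
    have := mu_shift.measure_preimage (hm m true).nullMeasurableSet
    exact this
  have hsplit : mu {x : ℤ → Bool | x (m + 1) = true} =
      mu {x : ℤ → Bool | x m = true ∧ x (m + 1) = true} +
      mu {x : ℤ → Bool | x m = false ∧ x (m + 1) = true} := by
    have h3 := measure_inter_add_sdiff (μ := mu) {x : ℤ → Bool | x (m + 1) = true} (hm m true)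
    rw [← h3]
    congr 2
    · ext x; simp [and_comm]
    · ext x; simp [and_comm]
  have htf : mu {x : ℤ → Bool | x m = true} + mu {x : ℤ → Bool | x m = false} = 1 := by
    have h3 := measure_add_measure_compl (μ := mu) (hm m true)
    rw [measure_univ] at h3
    rw [← h3]
    congr 2
    ext x; simp
  rw [h2 true, h2 false, hshift] at hsplit
  set t := mu {x : ℤ → Bool | x m = true} with ht
  set s := mu {x : ℤ → Bool | x m = false} with hs
  have ht' : t ≠ ∞ := measure_ne_top _ _
  have hs' : s ≠ ∞ := measure_ne_top _ _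
  have h0 := g_pos
  have e1 : t.toReal = s.toReal * (g ^ 2)⁻¹ := by
    have := congrArg ENNReal.toReal hsplit
    simpa [P, ENNReal.toReal_mul, ENNReal.toReal_ofReal, g_pos.le] using this
  have e2 : t.toReal + s.toReal = 1 := by
    have := congrArg ENNReal.toReal htf
    rwa [ENNReal.toReal_add ht' hs', ENNReal.toReal_one] at this
  have e3 : s.toReal = g ^ 2 / (g ^ 2 + 1) := by
    rw [e1] at e2
    field_simp at e2 ⊢
    linarith
  have e4 : t.toReal = 1 / (g ^ 2 + 1) := by
    rw [e1, e3]
    field_simp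
  cases b
  · show s = _
    rw [← ENNReal.ofReal_toReal hs', e3]
    simp [p]
  · show t = _
    rw [← ENNReal.ofReal_toReal ht', e4]
    simp [p]

lemma p_nonneg (a : Bool) : 0 ≤ p a := by
  have := g_pos
  cases a <;> simp only [p] <;> simp <;> positivity

theorem mu_word (m : ℤ) (n : ℕ) (w : ℕ → Bool) :
    mu {x : ℤ → Bool | ∀ i : ℕ, i ≤ n → x (m + i) = w i} =
      ENNReal.ofReal (p (w 0) * ∏ i ∈ Finset.range n, P (w i) (w (i + 1))) := by
  induction n with
  | zero =>
    rw [Finset.prod_range_zero, mul_one, ← mu_coord m (w 0)]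
    congr 1
    ext x
    simp only [Set.mem_ofPred_eq]
    constructor
    · intro h
      simpa using h 0 le_rfl
    · intro ha i hi
      obtain rfl : i = 0 := by omega
      simpa using ha
  | succ n ih =>
    rw [mu_step, ih, ← ENNReal.ofReal_mul (mul_nonneg (p_nonneg _)
      (Finset.prod_nonneg fun _ _ => P_nonneg _ _)), Finset.prod_range_succ, mul_assoc]

theorem isMarkovLaw : IsMarkovLaw P p mu := ⟨inferInstance, mu_word⟩

end Pool.Agent.TH984.FC.Golden
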