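import Pool.Agent.TH984.FC.Defs
import Pool.Agent.Helper179.KSLemmas

/-! Basic facts on iid laws: shift invariance, finite windows, and the lower bound of the
Kolmogorov-Sinai entropy by the entropy of finite partitions of the alphabet. -/

set_option autoImplicit false

open MeasureTheory ProbabilityTheory Filter Topology
open scoped ENNReal NNReal
open Pool.Agent.Helper179.KS

namespace Pool.Agent.TH984.FC

lemma shift_iterate {A : Type*} (x : ℤ → A) (j : ℕ) (i : ℤ) : (shift^[j] x) i = x (i + j) := by
  induction j generalizing x i with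
  | zero => simp
  | succ j ih =>
    rw [Function.iterate_succ_apply, ih]
    simp only [shift]
    congr 1
    push_cast
    ring

variable {A : Type*} [MeasurableSpace A]

lemma measurable_shift : Measurable (shift : (ℤ → A) → (ℤ → A)) :=
  measurable_pi_lambda _ fun n => measurable_pi_apply (n + 1)

variable (q : Measure A) [IsProbabilityMeasure q]

instance : IsProbabilityMeasure (iid q) := by unfold iid; infer_instance

lemma iid_shift : MeasurePreserving (shift : (ℤ → A) → (ℤ → A)) (iid q) (iid q) := by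
  refine ⟨measurable_shift, ?_⟩
  exact Measure.map_infinitePi_infinitePi_of_inj (P := fun _ : ℤ => q)
    (f := fun n : ℤ => n + 1) (fun a b h => by simpa using h)

lemma iid_window {ι : Type*} [Fintype ι] (f : ι → ℤ) (hf : Function.Injective f) :
    (iid q).map (fun y (i : ι) => y (f i)) = Measure.pi (fun _ : ι => q) := by
  rw [← Measure.infinitePi_eq_pi]
  exact Measure.map_infinitePi_infinitePi_of_inj (P := fun _ : ℤ => q) hf

lemma iid_box {ι : Type*} [Fintype ι] (f : ι → ℤ) (hf : Function.Injective f) (t : ι → Set A)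
    (ht : ∀ i, MeasurableSet (t i)) :
    iid q {y | ∀ i, y (f i) ∈ t i} = ∏ i, q (t i) := by
  have h1 : {y : ℤ → A | ∀ i, y (f i) ∈ t i} =
      (fun y (i : ι) => y (f i)) ⁻¹' (Set.pi Set.univ t) := by
    ext y; simp
  rw [h1, ← Measure.map_apply (by fun_prop) (MeasurableSet.univ_pi ht), iid_window q f hf,
    Measure.pi_pi]

/-- entropy of a finite product of a probability vector -/
lemma sum_negMulLog_prod {κ : Type*} [Fintype κ] (p : κ → ℝ) (hp1 : ∑ i, p i = 1) (n : ℕ) :
    ∑ w : Fin n → κ, Real.negMulLog (∏ j, p (w j)) = n * ∑ i, Real.negMulLog (p i) := by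
  induction n with
  | zero => simp
  | succ n ih =>
    have hprod : ∑ w : Fin n → κ, ∏ j, p (w j) = 1 := by
      rw [← Fintype.piFinset_univ, Finset.sum_prod_piFinset]
      simp [hp1]
    have h1 : ∑ w : Fin (n + 1) → κ, Real.negMulLog (∏ j, p (w j)) =
        ∑ z : κ × (Fin n → κ), Real.negMulLog (p z.1 * ∏ j, p (z.2 j)) := by
      refine (Fintype.sum_equiv (Fin.consEquiv (fun _ => κ)) _ _ fun z => ?_).symm
      congr 1
      rw [Fin.prod_univ_succ]
      simp [Fin.consEquiv]
    rw [h1, Fintype.sum_prod_type]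
    have h2 : ∀ i : κ, ∑ w : Fin n → κ, Real.negMulLog (p i * ∏ j, p (w j)) =
        Real.negMulLog (p i) + p i * (n * ∑ i, Real.negMulLog (p i)) := by
      intro i
      rw [← ih, Finset.mul_sum]
      simp only [Real.negMulLog_mul]
      rw [Finset.sum_add_distrib, ← Finset.sum_mul, hprod, one_mul]
    rw [Finset.sum_congr rfl fun i _ => h2 i, Finset.sum_add_distrib, ← Finset.sum_mul, hp1]
    push_cast
    ring

lemma shannon_iid {k : ℕ} {κ : A → Fin k} (hκ : Measurable κ) (n : ℕ) :
    shannonEntropy (iid q) (itinerary shift (fun y : ℤ → A => κ (y 0)) n) =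
      n * shannonEntropy q κ := by
  have hsum : ∑ i, q.real (κ ⁻¹' {i}) = 1 := sum_measureReal_preimage q hκ
  unfold shannonEntropy
  rw [← sum_negMulLog_prod (fun i => q.real (κ ⁻¹' {i})) hsum n]
  refine Finset.sum_congr rfl fun w _ => ?_
  congr 1
  have h1 : itinerary shift (fun y : ℤ → A => κ (y 0)) n ⁻¹' {w} =
      {y : ℤ → A | ∀ j : Fin n, y ((j : ℕ) : ℤ) ∈ κ ⁻¹' {w j}} := by
    ext y
    simp only [Set.mem_preimage, Set.mem_singleton_iff, Set.mem_ofPred_eq]
    have hj : ∀ j : Fin n, itinerary shift (fun y : ℤ → A => κ (y 0)) n y j =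
        κ (y ((j : ℕ) : ℤ)) := by
      intro j
      show κ ((shift^[(j : ℕ)] y) 0) = _
      rw [shift_iterate, zero_add]
    constructor
    · intro h j
      rw [← hj, h]
    · intro h
      funext j
      rw [hj]
      exact h j
  rw [h1, Measure.real, iid_box q (fun j : Fin n => ((j : ℕ) : ℤ))
    (fun a b h => by simpa [Fin.ext_iff] using h) (fun j => κ ⁻¹' {w j})
    (fun j => hκ (measurableSet_singleton _)), ENNReal.toReal_prod]
  rfl

/-- The entropy of any finite partition of the alphabet is a lower bound. -/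
lemma shannon_le_ks {k : ℕ} {κ : A → Fin k} (hκ : Measurable κ) :
    ((shannonEntropy q κ : ℝ) : EReal) ≤ ksEntropy (iid q) shift := by
  have hP : Measurable (fun y : ℤ → A => κ (y 0)) := hκ.comp (measurable_pi_apply 0)
  refine le_trans ?_ (le_iSup₂_of_le k (fun y : ℤ → A => κ (y 0)) (le_iSup_of_le hP le_rfl))
  unfold partitionEntropy
  have h1 : Tendsto (fun n : ℕ => ((shannonEntropy (iid q)
      (itinerary shift (fun y : ℤ → A => κ (y 0)) n) / n : ℝ) : EReal)) atTop
      (𝓝 ((shannonEntropy q κ : ℝ) : EReal)) := by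
    refine Tendsto.congr' ?_ tendsto_const_nhds
    filter_upwards [eventually_gt_atTop 0] with n hn
    rw [shannon_iid q hκ n]
    have : (n : ℝ) ≠ 0 := by exact_mod_cast hn.ne'
    rw [mul_div_cancel_left₀ _ this]
  rw [h1.limsup_eq]

end Pool.Agent.TH984.FC
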