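import Mathlib

/-! Sums of iid integrable variables of nonpositive mean whose negative parts are bounded in `L¹`
are degenerate. -/

set_option autoImplicit false

open MeasureTheory ProbabilityTheory Filter Topology
open scoped ENNReal NNReal

namespace Pool.Agent.TH984.FC

variable {Ω : Type*} [MeasurableSpace Ω] {P : Measure Ω} [IsProbabilityMeasure P]

lemma abs_eq_add_two_neg (s : ℝ) : |s| = s + 2 * max (-s) 0 := by
  rcases le_total 0 s with h | h
  · rw [abs_of_nonneg h, max_eq_right (by linarith)]; ring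
  · rw [abs_of_nonpos h, max_eq_left (by linarith)]; ring

lemma integral_neg_le {S : Ω → ℝ} (hS : Integrable S P) {B : ℝ≥0}
    (hB : ∫⁻ ω, ENNReal.ofReal (-S ω) ∂P ≤ B) : ∫ ω, max (-S ω) 0 ∂P ≤ B := by
  have hmeas : AEStronglyMeasurable (fun ω => max (-S ω) 0) P :=
    (hS.neg.sup (integrable_const (0:ℝ))).aestronglyMeasurable
  rw [integral_eq_lintegral_of_nonneg_ae (f := fun ω => max (-S ω) 0)
    (Eventually.of_forall fun ω => le_max_right _ _) hmeas]
  refine ENNReal.toReal_le_of_le_ofReal B.2 ?_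
  rw [ENNReal.ofReal_coe_nnreal]
  refine le_trans (lintegral_mono fun ω => ?_) hB
  rcases le_total 0 (-S ω) with h | h
  · rw [max_eq_left h]
  · rw [max_eq_right h]; simp

theorem degenerate {u : ℕ → Ω → ℝ} (hu : ∀ i, StronglyMeasurable (u i)) (hind : iIndepFun u P)
    (hint : ∀ i, Integrable (u i) P) (m : ℝ) (hm : ∀ i, ∫ ω, u i ω ∂P = m) (hm0 : m ≤ 0)
    (hdist : ∀ i, ∀ ε : ℝ, 0 < ε → P {ω | ε ≤ |u i ω|} = P {ω | ε ≤ |u 0 ω|})
    (B : ℝ≥0) (hB : ∀ N : ℕ, ∫⁻ ω, ENNReal.ofReal (-∑ i ∈ Finset.range N, u i ω) ∂P ≤ B) :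
    ∀ᵐ ω ∂P, u 0 ω = 0 := by
  set S : ℕ → Ω → ℝ := fun N ω => ∑ i ∈ Finset.range N, u i ω with hSdef
  have hSint : ∀ N, Integrable (S N) P := fun N => integrable_finsetSum _ fun i _ => hint i
  have hSm : ∀ N, ∫ ω, S N ω ∂P = N * m := by
    intro N
    simp only [hSdef]
    rw [integral_finsetSum _ fun i _ => hint i]
    simp [hm]
  have hneg : ∀ N, ∫ ω, max (-S N ω) 0 ∂P ≤ B := fun N => integral_neg_le (hSint N) (hB N)
  have hmaxint : ∀ N, Integrable (fun ω => max (-S N ω) 0) P :=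
    fun N => (hSint N).neg.sup (integrable_const (0:ℝ))
  -- the mean vanishes
  have hmz : m = 0 := by
    by_contra hne
    have hlt : m < 0 := lt_of_le_of_ne hm0 hne
    obtain ⟨N, hN⟩ := exists_nat_gt ((B : ℝ) / (-m))
    rw [div_lt_iff₀ (by linarith)] at hN
    have h1 : -(N * m) ≤ B := by
      rw [← hSm N, ← integral_neg]
      exact (integral_mono (hSint N).neg (hmaxint N) fun ω => le_max_left _ _).trans (hneg N)
    linarith
  have habs : ∀ N, ∫ ω, |S N ω| ∂P ≤ 2 * B := by
    intro N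
    have e : (fun ω => |S N ω|) = fun ω => S N ω + 2 * max (-S N ω) 0 := by
      funext ω; exact abs_eq_add_two_neg _
    rw [e, integral_add (hSint N) ((hmaxint N).const_mul 2), integral_const_mul, hSm N, hmz]
    have := hneg N
    linarith
  -- the martingale
  set ℱ := Filtration.natural u hu with hℱ
  have hadp : StronglyAdapted ℱ (fun n => S (n + 1)) := by
    intro n
    simp only [hSdef]
    refine Finset.stronglyMeasurable_fun_sum _ fun i hi => ?_
    have := (Filtration.stronglyAdapted_natural hu) i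
    exact this.mono (ℱ.mono (by simpa [Nat.lt_succ_iff] using hi))
  have hmart : Martingale (fun n => S (n + 1)) ℱ P := by
    refine martingale_of_condExp_sub_eq_zero_nat hadp (fun n => hSint _) fun n => ?_
    have e : S (n + 1 + 1) - S (n + 1) = u (n + 1) := by
      funext ω
      simp only [hSdef, Pi.sub_apply]
      rw [Finset.sum_range_succ _ (n + 1)]
      ring
    show P[S (n + 1 + 1) - S (n + 1) | ℱ n] =ᵐ[P] 0
    rw [e]
    have h1 := iIndepFun.condExp_natural_ae_eq_of_lt hu hind (Nat.lt_succ_self n)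
    refine h1.trans ?_
    rw [hm, hmz]
    rfl
  have hbdd : ∀ n, eLpNorm (S (n + 1)) 1 P ≤ ((2 * B : ℝ≥0) : ℝ≥0∞) := by
    intro n
    rw [eLpNorm_one_eq_lintegral_enorm]
    have h1 : ∫⁻ ω, ‖S (n + 1) ω‖ₑ ∂P = ENNReal.ofReal (∫ ω, |S (n + 1) ω| ∂P) := by
      rw [ofReal_integral_eq_lintegral_ofReal (hSint _).abs
        (Eventually.of_forall fun ω => abs_nonneg _)]
      refine lintegral_congr fun ω => ?_
      rw [Real.enorm_eq_ofReal_abs]
    rw [h1]
    refine ENNReal.ofReal_le_of_le_toReal ?_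
    simpa using habs (n + 1)
  have hconv := hmart.submartingale.exists_ae_tendsto_of_bdd hbdd
  -- increments tend to zero
  have hincr : ∀ᵐ ω ∂P, Tendsto (fun n => u (n + 1) ω) atTop (𝓝 0) := by
    filter_upwards [hconv] with ω ⟨c, hc⟩
    have h1 : Tendsto (fun n => S (n + 1 + 1) ω) atTop (𝓝 c) :=
      hc.comp (tendsto_add_atTop_nat 1)
    have h2 := h1.sub hc
    rw [sub_self] at h2
    refine h2.congr fun n => ?_
    simp only [hSdef]
    rw [Finset.sum_range_succ _ (n + 1)]
    ring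
  have hmeas := tendstoInMeasure_of_tendsto_ae (f := fun n => u (n + 1)) (g := fun _ => (0:ℝ))
    (fun n => (hu (n + 1)).aestronglyMeasurable) hincr
  have hzero : ∀ ε : ℝ, 0 < ε → P {ω | ε ≤ |u 0 ω|} = 0 := by
    intro ε hε
    have h1 := hmeas (ENNReal.ofReal ε) (by simpa using hε)
    have h2 : ∀ n, P {ω | ENNReal.ofReal ε ≤ edist (u (n + 1) ω) 0} = P {ω | ε ≤ |u 0 ω|} := by
      intro n
      rw [← hdist (n + 1) ε hε]
      congr 1
      ext ω
      simp only [Set.mem_ofPred_eq]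
      rw [edist_zero_right, Real.enorm_eq_ofReal_abs]
      rw [ENNReal.ofReal_le_ofReal_iff (abs_nonneg _)]
    simp only [h2] at h1
    exact tendsto_nhds_unique tendsto_const_nhds h1
  have hall : ∀ᵐ ω ∂P, ∀ k : ℕ, ¬ (1 / ((k : ℝ) + 1) ≤ |u 0 ω|) := by
    rw [ae_all_iff]
    intro k
    have := hzero (1 / ((k : ℝ) + 1)) (by positivity)
    rw [ae_iff]
    simpa using this
  filter_upwards [hall] with ω hω
  by_contra hne
  have hpos : 0 < |u 0 ω| := abs_pos.2 hne
  obtain ⟨k, hk⟩ := exists_nat_one_div_lt hpos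
  exact hω k hk.le

end Pool.Agent.TH984.FC
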