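import Pool.Agent.TH984.FC.Window
import Pool.Agent.TH984.FC.Atoms
import Pool.Agent.TH984.FC.Mart

/-! If an iid process of entropy at most `h` has a factor map with exponential coding windows onto a
process whose `n`-cylinders have mass at most `C0 e^{-hn}`, then all atoms of its marginal have
mass `e^{-h}`. -/

set_option autoImplicit false

open MeasureTheory ProbabilityTheory Filter Topology
open scoped ENNReal NNReal
open Pool.Agent.Helper179.KS

namespace Pool.Agent.TH984.FC

variable {A B : Type*} [MeasurableSpace A] [MeasurableSpace B]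

lemma ofReal_neg_le {s c0 h : ℝ} (hh : 0 < h) :
    ENNReal.ofReal (-s) ≤ ENNReal.ofReal c0 +
      ∑' r : ℕ, ENNReal.ofReal (2 * h) * (if s < -(2 * r * h) - c0 then 1 else 0) := by
  rcases le_or_gt (-c0) s with h1 | h1
  · refine le_trans (ENNReal.ofReal_le_ofReal (by linarith)) le_self_add
  · set R : ℕ := ⌈(-s - c0) / (2 * h)⌉₊ with hR
    have h2 : ∑ r ∈ Finset.range R, ENNReal.ofReal (2 * h) *
        (if s < -(2 * r * h) - c0 then (1 : ℝ≥0∞) else 0) = R * ENNReal.ofReal (2 * h) := by
      rw [Finset.sum_congr rfl (g := fun _ => ENNReal.ofReal (2 * h))]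
      · rw [Finset.sum_const, Finset.card_range, nsmul_eq_mul]
      · intro r hr
        have hr1 := Finset.mem_range.1 hr
        have hr2 : (r : ℝ) < (-s - c0) / (2 * h) := Nat.lt_ceil.1 hr1
        rw [lt_div_iff₀ (by linarith)] at hr2
        rw [if_pos (by linarith), mul_one]
    have h3 : (R : ℝ≥0∞) * ENNReal.ofReal (2 * h) ≤
        ∑' r : ℕ, ENNReal.ofReal (2 * h) * (if s < -(2 * r * h) - c0 then 1 else 0) := by
      rw [← h2]
      exact ENNReal.sum_le_tsum _
    refine le_trans ?_ (add_le_add le_rfl h3)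
    have h4 : (R : ℝ≥0∞) * ENNReal.ofReal (2 * h) = ENNReal.ofReal (R * (2 * h)) := by
      rw [ENNReal.ofReal_mul (p := (R : ℝ)) (Nat.cast_nonneg _), ENNReal.ofReal_natCast]
    rw [h4]
    have h5 : (-s - c0) / (2 * h) ≤ R := Nat.le_ceil _
    rw [div_le_iff₀ (by linarith)] at h5
    refine le_trans ?_ ENNReal.ofReal_add_le
    exact ENNReal.ofReal_le_ofReal (by linarith)

theorem atom_mass [StandardBorelSpace A] [MeasurableSingletonClass B]
    (q : Measure A) [IsProbabilityMeasure q]
    (μ : Measure (ℤ → B)) (φ : (ℤ → A) → (ℤ → B)) (hφ : IsFactorMap (iid q) μ φ)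
    (hwin : ExpCodingWindow (iid q) φ)
    {C0 h : ℝ} (hC0 : 1 ≤ C0) (hh : 0 < h)
    (hcyl : ∀ (m n : ℕ) (w : ℕ → B),
      μ {x | ∀ i < n, x ((m : ℤ) + i) = w i} ≤ ENNReal.ofReal (C0 * Real.exp (-(h * n))))
    (H : ∀ (k : ℕ) (κ : A → Fin k), Measurable κ → shannonEntropy q κ ≤ h) :
    ∀ᵐ a ∂q, q.real {a} = Real.exp (-h) := by
  obtain ⟨hmeas, hatom, hI, hIle⟩ := atoms q H
  obtain ⟨G, hG, C, c, hC, hc, hdet⟩ := hwin
  set X : A → ℝ := fun a => -Real.log (q.real {a}) - h with hX
  have hXm : Measurable X := ((Real.measurable_log.comp hmeas).neg).sub_const h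
  have hXI : Integrable X q := hI.sub (integrable_const h)
  have hXle : ∫ a, X a ∂q ≤ 0 := by
    simp only [hX]
    rw [integral_sub hI (integrable_const h)]
    simp
    linarith
  set u : ℕ → (ℤ → A) → ℝ := fun i y => X (y (i : ℤ)) with hu
  have hev : ∀ i : ℕ, MeasurePreserving (fun y : ℤ → A => y (i : ℤ)) (iid q) q :=
    fun i => measurePreserving_eval_infinitePi (fun _ : ℤ => q) (i : ℤ)
  have hum : ∀ i, StronglyMeasurable (u i) := fun i =>
    (hXm.comp (measurable_pi_apply (i : ℤ))).stronglyMeasurable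
  have hind : iIndepFun u (iid q) := by
    have h1 : iIndepFun (fun (i : ℤ) (ω : ℤ → A) => X (ω i)) (iid q) :=
      iIndepFun_infinitePi (P := fun _ : ℤ => q) (X := fun _ => X) (fun _ => hXm)
    exact iIndepFun.precomp (g := fun i : ℕ => (i : ℤ)) (fun a b h => by simpa using h) h1
  have hint : ∀ i, Integrable (u i) (iid q) := fun i => (hev i).integrable_comp_of_integrable hXI
  have hmean : ∀ i, ∫ y, u i y ∂(iid q) = ∫ a, X a ∂q := fun i => by
    have h1 := integral_map (μ := iid q) (φ := fun y : ℤ → A => y (i : ℤ)) (f := X)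
      (hev i).measurable.aemeasurable hXm.aestronglyMeasurable
    rw [(hev i).map_eq] at h1
    exact h1.symm
  have hdist : ∀ i, ∀ ε : ℝ, 0 < ε → iid q {ω | ε ≤ |u i ω|} = iid q {ω | ε ≤ |u 0 ω|} := by
    intro i ε _
    have hS : MeasurableSet {a : A | ε ≤ |X a|} := measurableSet_le measurable_const hXm.abs
    have h1 : ∀ j : ℕ, iid q {ω | ε ≤ |u j ω|} = q {a | ε ≤ |X a|} := fun j =>
      (hev j).measure_preimage hS.nullMeasurableSet
    rw [h1, h1]
  -- uniform bound of the negative parts
  set K1 : ℝ := 2 * (C / (1 - Real.exp (-c))) with hK1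
  have hlt : Real.exp (-c) < 1 := by rw [Real.exp_lt_one_iff]; linarith
  have hK1pos : 0 ≤ K1 := by
    have : 0 < 1 - Real.exp (-c) := by linarith
    positivity
  set Bd : ℝ≥0∞ := ENNReal.ofReal (Real.log C0) +
    ∑' r : ℕ, ENNReal.ofReal (2 * h) * ENNReal.ofReal (K1 * Real.exp (-(c * r))) with hBd
  have hBdtop : Bd ≠ ∞ := by
    rw [hBd, ENNReal.add_ne_top]
    refine ⟨ENNReal.ofReal_ne_top, ?_⟩
    rw [ENNReal.tsum_mul_left]
    refine ENNReal.mul_ne_top ENNReal.ofReal_ne_top ?_
    refine Summable.tsum_ofReal_ne_top ?_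
    have h1 : (fun r : ℕ => K1 * Real.exp (-(c * r))) = fun r : ℕ => K1 * (Real.exp (-c)) ^ r := by
      funext r
      rw [← Real.exp_nat_mul]
      congr 2
      ring
    rw [h1]
    exact (summable_geometric_of_lt_one (Real.exp_nonneg _) hlt).mul_left K1
  have hneg : ∀ N : ℕ, ∫⁻ y, ENNReal.ofReal (-∑ i ∈ Finset.range N, u i y) ∂(iid q) ≤ Bd := by
    intro N
    have hSm : Measurable (fun y : ℤ → A => ∑ i ∈ Finset.range N, u i y) :=
      Finset.measurable_fun_sum _ fun i _ => (hum i).measurable
    have hTm : ∀ r : ℕ, MeasurableSet {y : ℤ → A | ∑ i ∈ Finset.range N, u i y <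
        -(2 * r * h) - Real.log C0} := fun r => measurableSet_lt hSm measurable_const
    calc ∫⁻ y, ENNReal.ofReal (-∑ i ∈ Finset.range N, u i y) ∂(iid q)
        ≤ ∫⁻ y, (ENNReal.ofReal (Real.log C0) + ∑' r : ℕ, ENNReal.ofReal (2 * h) *
            (if ∑ i ∈ Finset.range N, u i y < -(2 * r * h) - Real.log C0 then 1 else 0)) ∂(iid q) :=
          lintegral_mono fun y => ofReal_neg_le hh
      _ = ENNReal.ofReal (Real.log C0) + ∑' r : ℕ, ∫⁻ y, ENNReal.ofReal (2 * h) *
            (if ∑ i ∈ Finset.range N, u i y < -(2 * r * h) - Real.log C0 then 1 else 0)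
              ∂(iid q) := by
          rw [lintegral_add_left measurable_const, lintegral_const, measure_univ, mul_one,
            lintegral_tsum]
          intro r
          exact ((measurable_const.ite (hTm r) measurable_const).const_mul _).aemeasurable
      _ ≤ Bd := by
          refine add_le_add le_rfl (ENNReal.tsum_le_tsum fun r => ?_)
          rw [lintegral_const_mul _ (measurable_const.ite (hTm r) measurable_const)]
          refine mul_le_mul_right ?_ _
          have h2 : ∀ y : ℤ → A, (if ∑ i ∈ Finset.range N, u i y < -(2 * r * h) - Real.log C0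
              then (1 : ℝ≥0∞) else 0) = Set.indicator {y : ℤ → A | ∑ i ∈ Finset.range N, u i y <
              -(2 * r * h) - Real.log C0} 1 y := by
            intro y
            by_cases hy : ∑ i ∈ Finset.range N, u i y < -(2 * r * h) - Real.log C0
            · rw [if_pos hy, Set.indicator_of_mem (by exact hy)]; rfl
            · rw [if_neg hy, Set.indicator_of_notMem (by exact hy)]
          rw [lintegral_congr h2, lintegral_indicator_one (hTm r)]
          exact window_ineq q μ φ hφ hG hC hc hdet hC0 hh hcyl hatom r N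
  have hdeg := degenerate hum hind hint _ hmean hXle hdist Bd.toNNReal (fun N => by
    rw [ENNReal.coe_toNNReal hBdtop]; exact hneg N)
  -- transfer to the marginal
  have hXae : ∀ᵐ a ∂q, X a = 0 := by
    have h1 := (hev 0)
    have h2 : MeasurableSet {a : A | X a = 0} := measurableSet_eq_fun hXm measurable_const
    have h3 : ∀ᵐ a ∂((iid q).map (fun y : ℤ → A => y ((0 : ℕ) : ℤ))), X a = 0 := by
      rw [ae_map_iff h1.measurable.aemeasurable h2]
      exact hdeg
    rw [h1.map_eq] at h3
    exact h3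
  filter_upwards [hXae, hatom] with a h1 h2
  simp only [hX] at h1
  have h3 : Real.log (q.real {a}) = -h := by linarith
  rw [← h3, Real.exp_log h2]

end Pool.Agent.TH984.FC
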