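import Pool.Agent.TH984.FC.Iid

/-! The key inequality: a finitary factor map with small coding windows forces the information
sums of the iid process to be bounded below with exponentially small failure probability. -/

set_option autoImplicit false

open MeasureTheory ProbabilityTheory Filter Topology
open scoped ENNReal NNReal

namespace Pool.Agent.TH984.FC

variable {A B : Type*} [MeasurableSpace A] [MeasurableSpace B]

lemma geom_tail_le {C c : ℝ} (hC : 0 < C) (hc : 0 < c) (r n : ℕ) :
    ∑ i ∈ Finset.range n, ENNReal.ofReal (C * Real.exp (-(c * ((r + i : ℕ) : ℝ)))) ≤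
      ENNReal.ofReal (C / (1 - Real.exp (-c)) * Real.exp (-(c * r))) := by
  have hlt : Real.exp (-c) < 1 := by rw [Real.exp_lt_one_iff]; linarith
  have hpos : 0 < 1 - Real.exp (-c) := by linarith
  rw [← ENNReal.ofReal_sum_of_nonneg (fun i _ => by positivity)]
  refine ENNReal.ofReal_le_ofReal ?_
  have h1 : ∀ i ∈ Finset.range n, C * Real.exp (-(c * ((r + i : ℕ) : ℝ))) =
      C * Real.exp (-(c * r)) * (Real.exp (-c)) ^ i := by
    intro i _
    rw [← Real.exp_nat_mul, mul_assoc, ← Real.exp_add]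
    congr 2
    push_cast
    ring
  rw [Finset.sum_congr rfl h1, ← Finset.mul_sum]
  have h2 : ∑ i ∈ Finset.range n, (Real.exp (-c)) ^ i ≤ 1 / (1 - Real.exp (-c)) := by
    rw [geom_sum_eq hlt.ne n, ← neg_div_neg_eq]
    refine div_le_div₀ (by norm_num) ?_ (by linarith) (by linarith)
    have : 0 ≤ (Real.exp (-c)) ^ n := by positivity
    linarith
  calc C * Real.exp (-(c * r)) * ∑ i ∈ Finset.range n, (Real.exp (-c)) ^ i
      ≤ C * Real.exp (-(c * r)) * (1 / (1 - Real.exp (-c))) :=
        mul_le_mul_of_nonneg_left h2 (by positivity)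
    _ = C / (1 - Real.exp (-c)) * Real.exp (-(c * r)) := by ring

theorem window_ineq [MeasurableSingletonClass A] [MeasurableSingletonClass B]
    (q : Measure A) [IsProbabilityMeasure q]
    (μ : Measure (ℤ → B)) (φ : (ℤ → A) → (ℤ → B)) (hφ : IsFactorMap (iid q) μ φ)
    {G : Set (ℤ → A)} (hG : iid q Gᶜ = 0) {C c : ℝ} (hC : 0 < C) (hc : 0 < c)
    (hdet : ∀ r : ℕ, iid q {y | ¬ Determined G φ r y} ≤ ENNReal.ofReal (C * Real.exp (-(c * r))))
    {C0 h : ℝ} (hC0 : 1 ≤ C0) (hh : 0 < h)
    (hcyl : ∀ (m n : ℕ) (w : ℕ → B),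
      μ {x | ∀ i < n, x ((m : ℤ) + i) = w i} ≤ ENNReal.ofReal (C0 * Real.exp (-(h * n))))
    (hatom : ∀ᵐ a ∂q, 0 < q.real {a}) (r N : ℕ) :
    iid q {y | ∑ i ∈ Finset.range N, (-Real.log (q.real {y (i : ℤ)}) - h) <
      -(2 * r * h) - Real.log C0} ≤
      ENNReal.ofReal (2 * (C / (1 - Real.exp (-c))) * Real.exp (-(c * r))) := by
  have hlogC0 : 0 ≤ Real.log C0 := Real.log_nonneg hC0
  rcases lt_or_ge N (2 * r) with hN | hN
  · -- the set is empty
    have : {y : ℤ → A | ∑ i ∈ Finset.range N, (-Real.log (q.real {y (i : ℤ)}) - h) <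
        -(2 * r * h) - Real.log C0} = ∅ := by
      ext y
      simp only [Set.mem_ofPred_eq, Set.mem_empty_iff_false, iff_false, not_lt]
      have h1 : ∑ i ∈ Finset.range N, (-h) ≤
          ∑ i ∈ Finset.range N, (-Real.log (q.real {y (i : ℤ)}) - h) := by
        refine Finset.sum_le_sum fun i _ => ?_
        have := Real.log_nonpos (measureReal_nonneg : 0 ≤ q.real {y (i : ℤ)}) measureReal_le_one
        linarith
      rw [Finset.sum_const, Finset.card_range, nsmul_eq_mul] at h1
      have h2 : (N : ℝ) ≤ 2 * r := by exact_mod_cast hN.le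
      have h3 : (N : ℝ) * h ≤ 2 * r * h := mul_le_mul_of_nonneg_right h2 hh.le
      linarith
    rw [this, measure_empty]
    exact zero_le
  obtain ⟨n, rfl⟩ := Nat.exists_eq_add_of_le hN
  -- the bad sets
  set rad : ℕ → ℕ := fun i => min (r + i) (r + (n - 1 - i)) with hrad
  set Bad : ℕ → Set (ℤ → A) := fun i => (shift^[r + i]) ⁻¹' {y | ¬ Determined G φ (rad i) y}
    with hBad
  have hBadm : ∀ i, iid q (Bad i) ≤ ENNReal.ofReal (C * Real.exp (-(c * ((r + i : ℕ) : ℝ)))) +
      ENNReal.ofReal (C * Real.exp (-(c * ((r + (n - 1 - i) : ℕ) : ℝ)))) := by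
    intro i
    have hmp := (iid_shift q).iterate (r + i)
    have h1 : iid q (Bad i) ≤ iid q {y | ¬ Determined G φ (rad i) y} := by
      have := Measure.le_map_apply (μ := iid q) hmp.measurable.aemeasurable
        {y | ¬ Determined G φ (rad i) y}
      rwa [hmp.map_eq] at this
    refine (h1.trans (hdet _)).trans ?_
    rcases min_choice (r + i) (r + (n - 1 - i)) with h2 | h2
    · simp only [hrad, h2]
      exact le_self_add
    · simp only [hrad, h2]
      exact le_add_self
  -- a.e. facts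
  have hGae : ∀ᵐ y ∂(iid q), ∀ p : ℕ, shift^[p] y ∈ G := by
    rw [ae_all_iff]
    intro p
    have h1 : ∀ᵐ y ∂(iid q), y ∈ G := hG
    exact ((iid_shift q).iterate p).quasiMeasurePreserving.ae h1
  have hcomm : ∀ᵐ y ∂(iid q), ∀ p : ℕ, φ (shift^[p] y) = shift^[p] (φ y) := by
    have h1 : ∀ᵐ y ∂(iid q), ∀ p : ℕ, φ (shift (shift^[p] y)) = shift (φ (shift^[p] y)) := by
      rw [ae_all_iff]
      intro p
      exact ((iid_shift q).iterate p).quasiMeasurePreserving.ae hφ.commutes
    filter_upwards [h1] with y hy p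
    induction p with
    | zero => rfl
    | succ p ih =>
      rw [Function.iterate_succ_apply', Function.iterate_succ_apply', hy p, ih]
  have hposae : ∀ᵐ y ∂(iid q), ∀ i : ℕ, 0 < q.real {y (i : ℤ)} := by
    rw [ae_all_iff]
    intro i
    exact (measurePreserving_eval_infinitePi (fun _ : ℤ => q) (i : ℤ)).quasiMeasurePreserving.ae
      hatom
  set Good : Set (ℤ → A) := {y | (∀ p : ℕ, shift^[p] y ∈ G) ∧
    ∀ p : ℕ, φ (shift^[p] y) = shift^[p] (φ y)} with hGood
  have hGoodae : iid q Goodᶜ = 0 := by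
    have : ∀ᵐ y ∂(iid q), y ∈ Good := by
      filter_upwards [hGae, hcomm] with y h1 h2
      exact ⟨h1, h2⟩
    exact this
  -- main inclusion
  have hincl : iid q {y | ∑ i ∈ Finset.range (2 * r + n), (-Real.log (q.real {y (i : ℤ)}) - h) <
      -(2 * r * h) - Real.log C0} ≤ iid q (⋃ i ∈ Finset.range n, Bad i) := by
    refine measure_mono_ae ?_
    filter_upwards [hGae, hcomm, hposae] with y hy1 hy2 hy3 hyT
    by_contra hcon
    have hdetall : ∀ i < n, Determined G φ (rad i) (shift^[r + i] y) := by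
      intro i hi
      by_contra hnd
      exact hcon (Set.mem_biUnion (Finset.mem_coe.2 (Finset.mem_range.2 hi)) hnd)
    -- block cylinder
    set E : Set (ℤ → A) := {y' | ∀ j : Fin (2 * r + n), y' ((j : ℕ) : ℤ) ∈ ({y ((j : ℕ) : ℤ)} : Set A)}
      with hE
    have hEm : iid q E = ∏ j : Fin (2 * r + n), q {y ((j : ℕ) : ℤ)} :=
      iid_box q (fun j : Fin (2 * r + n) => ((j : ℕ) : ℤ))
        (fun a b h => by simpa [Fin.ext_iff] using h) (fun j => {y ((j : ℕ) : ℤ)})
        (fun j => measurableSet_singleton _)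
    set cyl : Set (ℤ → B) := {x | ∀ i < n, x ((r : ℤ) + i) = φ y ((r : ℤ) + i)} with hcyldef
    have hsub : E ∩ Good ⊆ φ ⁻¹' cyl := by
      rintro y' ⟨hyE, hyG1, hyG2⟩ i hi
      have hd := hdetall i hi (shift^[r + i] y') (hyG1 _) ?_
      · rw [hyG2, hy2, shift_iterate, shift_iterate] at hd
        simpa using hd
      · intro k hk
        rw [shift_iterate, shift_iterate]
        have hk1 : |k| ≤ ((r + i : ℕ) : ℤ) := hk.trans (by exact_mod_cast min_le_left _ _)
        have hk2 : |k| ≤ ((r + (n - 1 - i) : ℕ) : ℤ) := hk.trans (by exact_mod_cast min_le_right _ _)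
        have hk1' := (abs_le.1 hk1).1
        have hk2' := (abs_le.1 hk2).2
        have hnn : 0 ≤ k + ((r + i : ℕ) : ℤ) := by linarith
        have hlt : k + ((r + i : ℕ) : ℤ) < ((2 * r + n : ℕ) : ℤ) := by
          have h5 : n - 1 - i + i + 1 = n := by omega
          have h6 : ((r + (n - 1 - i) : ℕ) : ℤ) + ((r + i : ℕ) : ℤ) < ((2 * r + n : ℕ) : ℤ) := by
            exact_mod_cast (by omega : r + (n - 1 - i) + (r + i) < 2 * r + n)
          linarith
        obtain ⟨j, hj⟩ := Int.eq_ofNat_of_zero_le hnn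
        rw [hj] at hlt ⊢
        have hj' : j < 2 * r + n := by exact_mod_cast hlt
        exact hyE ⟨j, hj'⟩
    have hcylm : MeasurableSet cyl := by
      have : cyl = ⋂ i : ℕ, ⋂ _ : i < n, {x : ℤ → B | x ((r : ℤ) + i) = φ y ((r : ℤ) + i)} := by
        ext x; simp [hcyldef]
      rw [this]
      exact MeasurableSet.iInter fun i => MeasurableSet.iInter fun _ =>
        (measurable_pi_apply _) (measurableSet_singleton _)
    have hE1 : iid q E ≤ ENNReal.ofReal (C0 * Real.exp (-(h * n))) := by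
      calc iid q E ≤ iid q ((E ∩ Good) ∪ Goodᶜ) := by
            refine measure_mono fun z hz => ?_
            by_cases hzG : z ∈ Good
            · exact Or.inl ⟨hz, hzG⟩
            · exact Or.inr hzG
        _ ≤ iid q (E ∩ Good) + iid q Goodᶜ := measure_union_le _ _
        _ = iid q (E ∩ Good) := by rw [hGoodae, add_zero]
        _ ≤ iid q (φ ⁻¹' cyl) := measure_mono hsub
        _ = μ cyl := by rw [← hφ.map_eq, Measure.map_apply hφ.measurable hcylm]
        _ ≤ ENNReal.ofReal (C0 * Real.exp (-(h * n))) :=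
            hcyl r n (fun i => φ y ((r : ℤ) + i))
    have hprod : ∏ j : Fin (2 * r + n), q {y ((j : ℕ) : ℤ)} =
        ENNReal.ofReal (∏ i ∈ Finset.range (2 * r + n), q.real {y (i : ℤ)}) := by
      rw [Finset.prod_range, ENNReal.ofReal_prod_of_nonneg (fun i _ => measureReal_nonneg)]
      refine Finset.prod_congr rfl fun j _ => ?_
      rw [ofReal_measureReal]
    rw [hEm, hprod, ENNReal.ofReal_le_ofReal_iff (by positivity)] at hE1
    have hppos : 0 < ∏ i ∈ Finset.range (2 * r + n), q.real {y (i : ℤ)} :=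
      Finset.prod_pos fun i _ => hy3 i
    have hlog := Real.log_le_log hppos hE1
    rw [Real.log_prod (fun i _ => (hy3 i).ne'), Real.log_mul (by linarith) (Real.exp_ne_zero _),
      Real.log_exp] at hlog
    change ∑ i ∈ Finset.range (2 * r + n), (-Real.log (q.real {y (i : ℤ)}) - h) <
      -(2 * r * h) - Real.log C0 at hyT
    rw [Finset.sum_sub_distrib, Finset.sum_neg_distrib, Finset.sum_const, Finset.card_range,
      nsmul_eq_mul] at hyT
    push_cast at hyT
    linarith
  refine hincl.trans ((measure_biUnion_finset_le _ _).trans ?_)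
  refine (Finset.sum_le_sum fun i _ => hBadm i).trans ?_
  rw [Finset.sum_add_distrib]
  have e1 : ∑ i ∈ Finset.range n,
      ENNReal.ofReal (C * Real.exp (-(c * ((r + (n - 1 - i) : ℕ) : ℝ)))) =
      ∑ i ∈ Finset.range n, ENNReal.ofReal (C * Real.exp (-(c * ((r + i : ℕ) : ℝ)))) :=
    Finset.sum_range_reflect (fun i => ENNReal.ofReal (C * Real.exp (-(c * ((r + i : ℕ) : ℝ))))) n
  rw [e1]
  have hlt : Real.exp (-c) < 1 := by rw [Real.exp_lt_one_iff]; linarith
  have hpos : 0 < 1 - Real.exp (-c) := by linarith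
  refine (add_le_add (geom_tail_le hC hc r n) (geom_tail_le hC hc r n)).trans ?_
  rw [← ENNReal.ofReal_add (by positivity) (by positivity)]
  refine ENNReal.ofReal_le_ofReal ?_
  linarith

end Pool.Agent.TH984.FC
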